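import Mathlib
import Pool.Agent.N991.MK.CThm2

/-!
# The second bracket of the `a`-function in the scaling limit
-/

open MeasureTheory Pool.Agent.N991.MK Pool.Agent.N989.MK Filter Matrix
open scoped Topology

namespace Pool.Agent.N839.AT

set_option linter.unusedSectionVars false

noncomputable section

/-! ### The bracket of the logarithms -/

lemma log_two {ι : Type*} {l : Filter ι} {h u : ι → ℝ} {U : ℝ}
    (hh : Tendsto h l atTop) (hu : Tendsto (fun i => h i * u i) l (𝓝 U)) :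
    Tendsto (fun i => h i ^ 2 * (Real.log (1 + u i) - u i + u i ^ 2 / 2)) l (𝓝 0) := by
  have h0 : Tendsto u l (𝓝 0) := by
    have h1 := hu.mul hh.inv_tendsto_atTop
    rw [mul_zero] at h1
    refine h1.congr' ?_
    filter_upwards [hh.eventually_gt_atTop 0] with i hi
    rw [Pi.inv_apply]
    field_simp
  have h2 : Tendsto (fun i => (h i * u i) ^ 2 * (|u i| / (1 - |u i|))) l (𝓝 0) := by
    have h3 : Tendsto (fun i => |u i| / (1 - |u i|)) l (𝓝 (|(0 : ℝ)| / (1 - |(0 : ℝ)|))) :=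
      h0.abs.div (tendsto_const_nhds.sub h0.abs) (by norm_num)
    have h4 := (hu.pow 2).mul h3
    simpa using h4
  refine squeeze_zero_norm' ?_ h2
  filter_upwards [h0.eventually (Metric.ball_mem_nhds (0 : ℝ) one_pos)] with i hi
  have hi' : |u i| < 1 := by simpa [Real.norm_eq_abs] using hi
  have h5 := Real.abs_log_sub_add_sum_range_le (x := -u i) (by rwa [abs_neg]) 2
  rw [abs_neg, Finset.sum_range_succ, Finset.sum_range_one, sub_neg_eq_add] at h5
  norm_num at h5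
  rw [Real.norm_eq_abs, abs_mul, abs_of_nonneg (sq_nonneg (h i))]
  have e : Real.log (1 + u i) - u i + u i ^ 2 / 2 = -u i + u i ^ 2 / 2 + Real.log (1 + u i) := by
    ring
  rw [e]
  refine (mul_le_mul_of_nonneg_left h5 (sq_nonneg _)).trans (le_of_eq ?_)
  rw [mul_pow, ← sq_abs (u i)]
  ring

theorem log_bracket {ι : Type*} {l : Filter ι} {h x y r : ι → ℝ} {X Y R : ℝ}
    (hh : Tendsto h l atTop) (hx : Tendsto x l (𝓝 X)) (hy : Tendsto y l (𝓝 Y))
    (hr : Tendsto r l (𝓝 R)) : Tendsto (fun i => h i ^ 2 *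
      (Real.log (1 + 5 * x i / h i + 10 * y i / h i ^ 2 + r i / h i ^ 3) -
        5 * Real.log (1 + x i / h i))) l (𝓝 (10 * (Y - X ^ 2))) := by
  have hi0 : Tendsto (fun i => (h i)⁻¹) l (𝓝 0) := hh.inv_tendsto_atTop
  obtain ⟨u, hu⟩ : ∃ u : ι → ℝ, u = fun i => 5 * x i / h i + 10 * y i / h i ^ 2 + r i / h i ^ 3 :=
    ⟨_, rfl⟩
  obtain ⟨v, hv⟩ : ∃ v : ι → ℝ, v = fun i => x i / h i := ⟨_, rfl⟩
  have h1 : Tendsto (fun i => h i * u i) l (𝓝 (5 * X)) := by
    have h2 : Tendsto (fun i => 5 * x i + 10 * y i * (h i)⁻¹ + r i * ((h i)⁻¹ * (h i)⁻¹)) l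
        (𝓝 (5 * X + 10 * Y * 0 + R * (0 * 0))) :=
      ((hx.const_mul 5).add ((hy.const_mul 10).mul hi0)).add (hr.mul (hi0.mul hi0))
    have e : 5 * X + 10 * Y * 0 + R * (0 * 0) = 5 * X := by ring
    rw [e] at h2
    refine h2.congr' ?_
    filter_upwards [hh.eventually_gt_atTop 0] with i hi
    rw [hu]
    field_simp
  have h2 : Tendsto (fun i => h i * v i) l (𝓝 X) := by
    refine hx.congr' ?_
    filter_upwards [hh.eventually_gt_atTop 0] with i hi
    rw [hv]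
    field_simp
  have h3 := log_two hh h1
  have h4 := log_two hh h2
  have h5 : Tendsto (fun i => 10 * y i + r i * (h i)⁻¹) l (𝓝 (10 * Y + R * 0)) :=
    (hy.const_mul 10).add (hr.mul hi0)
  have h6 := ((h3.sub (h4.const_mul 5)).add h5).sub
    (((h1.pow 2).const_mul (1 / 2)).sub ((h2.pow 2).const_mul (5 / 2)))
  have e : (0 : ℝ) - 5 * 0 + (10 * Y + R * 0) - (1 / 2 * (5 * X) ^ 2 - 5 / 2 * X ^ 2) =
      10 * (Y - X ^ 2) := by ring
  rw [e] at h6
  refine h6.congr' ?_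
  filter_upwards [hh.eventually_gt_atTop 0] with i hi
  have e1 : h i ^ 2 * u i = 5 * (h i * x i) + 10 * y i + r i * (h i)⁻¹ := by
    rw [hu]
    field_simp
  have e2 : h i ^ 2 * v i = h i * x i := by
    rw [hv]
    field_simp
  have e3 : 1 + 5 * x i / h i + 10 * y i / h i ^ 2 + r i / h i ^ 3 = 1 + u i := by
    rw [hu]
    ring
  have e4 : 1 + x i / h i = 1 + v i := by
    rw [hv]
  rw [e3, e4]
  linear_combination 5 * e2 - e1

/-! ### The algebra -/

section alg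

variable {G : Type*} [Group G] [TopologicalSpace G] [IsTopologicalGroup G] [CompactSpace G]
  [MeasurableSpace G] [BorelSpace G] [SecondCountableTopology G]
  {μ : Measure G} [IsProbabilityMeasure μ] [μ.IsHaarMeasure] [μ.IsMulRightInvariant]
  [μ.IsInvInvariant]

open Pool.Agent.N838.T3 (conv_assoc conv_adj)

/-- continuous symmetric class functions -/
structure CS (f : G → ℝ) : Prop where
  c : Continuous f
  l : Cls f
  s : Sy f

lemma CS.conv {f g : G → ℝ} (hf : CS f) (hg : CS g) : CS (conv μ f g) :=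
  ⟨cont_conv hf.c hg.c, conv_cls hf.l hg.l, conv_sy hf.l hg.l hf.s hg.s⟩

lemma sq_expand {p q r : G → ℝ} (hp : CS p) (hq : CS q) (hr : CS r) (s t : ℝ) :
    conv μ (fun x => p x + (s * q x + t * r x)) (fun x => p x + (s * q x + t * r x)) =
      fun x => conv μ p p x + 2 * s * conv μ p q x + (2 * t * conv μ p r x +
        s ^ 2 * conv μ q q x) + 2 * s * t * conv μ q r x + t ^ 2 * conv μ r r x := by
  have cs : CS fun x => s * q x :=
    ⟨continuous_const.mul hq.c, fun g x => by rw [hq.l], fun x => by rw [hq.s]⟩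
  have ct : CS fun x => t * r x :=
    ⟨continuous_const.mul hr.c, fun g x => by rw [hr.l], fun x => by rw [hr.s]⟩
  have cst : CS fun x => s * q x + t * r x :=
    ⟨cs.c.add ct.c, fun g x => by rw [hq.l, hr.l], fun x => by rw [hq.s, hr.s]⟩
  have cpst : CS fun x => p x + (s * q x + t * r x) :=
    ⟨hp.c.add cst.c, fun g x => by rw [hp.l, hq.l, hr.l], fun x => by rw [hp.s, hq.s, hr.s]⟩
  have key : ∀ {w : G → ℝ}, CS w → conv μ w (fun x => p x + (s * q x + t * r x)) =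
      fun x => conv μ w p x + (s * conv μ w q x + t * conv μ w r x) := by
    intro w hw
    rw [Pool.Agent.N109.T3.conv_add_right hw.c hp.c cst.c,
      Pool.Agent.N109.T3.conv_add_right hw.c cs.c ct.c, Pool.Agent.N109.T3.conv_smul_right,
      Pool.Agent.N109.T3.conv_smul_right]
  rw [key cpst]
  funext x
  rw [conv_comm cpst.l hp.l, conv_comm cpst.l hq.l, conv_comm cpst.l hr.l, key hp, key hq, key hr,
    conv_comm hq.l hp.l, conv_comm hr.l hp.l, conv_comm hr.l hq.l]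
  ring

lemma tri {A u v g : G → ℝ} (hA : CS A) (hu : CS u) (hv : CS v) (hg : CS g) :
    ∫ x, conv μ A (conv μ u v) x * g x ∂μ = ∫ x, conv μ u (conv μ A g) x * v x ∂μ := by
  rw [conv_adj hA.c hA.s (hu.conv (μ := μ) hv).c hg.c,
    conv_adj hu.c hu.s hv.c (hA.conv (μ := μ) hg).c]
  exact integral_congr_ae (Eventually.of_forall fun x => mul_comm _ _)

/-- the expansion of the first functional -/
theorem Bf_expand {f e : G → ℝ} (hf : CS f) (he : CS e) (t : ℝ) :
    Bf μ (fun x => f x + t * e x) = (∫ x, H4 μ f x * f x ∂μ) +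
      5 * t * (∫ x, H4 μ f x * e x ∂μ) +
      10 * t ^ 2 * (∫ x, conv μ (conv μ f f) (conv μ f e) x * e x ∂μ) +
      10 * t ^ 3 * (∫ x, conv μ (conv μ f e) (conv μ f e) x * e x ∂μ) +
      5 * t ^ 4 * (∫ x, conv μ (conv μ f e) (conv μ e e) x * e x ∂μ) +
      t ^ 5 * (∫ x, conv μ (conv μ e e) (conv μ e e) x * e x ∂μ) := by
  obtain ⟨P, hP⟩ : ∃ P, P = conv μ f f := ⟨_, rfl⟩
  obtain ⟨Q, hQ⟩ : ∃ Q, Q = conv μ f e := ⟨_, rfl⟩
  obtain ⟨R, hR⟩ : ∃ R, R = conv μ e e := ⟨_, rfl⟩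
  have cP : CS P := hP ▸ hf.conv hf
  have cQ : CS Q := hQ ▸ hf.conv he
  have cR : CS R := hR ▸ he.conv he
  -- the product of `P` and `R`
  have hPR : conv μ P R = conv μ Q Q := by
    rw [hQ, conv_assoc hf.c he.c (hf.conv (μ := μ) he).c, ← conv_assoc he.c hf.c he.c,
      conv_comm he.l hf.l, conv_assoc hf.c he.c he.c, ← conv_assoc hf.c hf.c (he.conv (μ := μ) he).c,
      ← hP, ← hR]
  have h1 : conv μ (fun x => f x + t * e x) (fun x => f x + t * e x) =
      fun x => P x + (2 * t * Q x + t ^ 2 * R x) := by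
    have h2 := sq_expand (μ := μ) hf he he t 0
    have e0 : (fun x => f x + (t * e x + 0 * e x)) = fun x => f x + t * e x := by
      funext x
      ring
    rw [e0] at h2
    rw [h2, hP, hQ, hR]
    funext x
    ring
  have h4 : H4 μ (fun x => f x + t * e x) = fun x => conv μ P P x + 4 * t * conv μ P Q x +
      6 * t ^ 2 * conv μ Q Q x + 4 * t ^ 3 * conv μ Q R x + t ^ 4 * conv μ R R x := by
    unfold H4
    rw [h1, sq_expand cP cQ cR, hPR]
    funext x
    ring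
  have hH : H4 μ f = conv μ P P := by rw [hP]; rfl
  -- the coincidences
  have t1 : ∫ x, conv μ P Q x * f x ∂μ = ∫ x, conv μ P P x * e x ∂μ := by
    rw [hQ, tri cP hf he hf, conv_comm cP.l hf.l, ← conv_assoc hf.c hf.c cP.c, ← hP]
  have t2 : ∫ x, conv μ Q Q x * f x ∂μ = ∫ x, conv μ P Q x * e x ∂μ := by
    have h5 : conv μ Q Q = conv μ Q (conv μ f e) := by rw [← hQ]
    rw [h5, tri cQ hf he hf, conv_comm cQ.l hf.l, ← conv_assoc hf.c hf.c cQ.c, ← hP]
  have t3 : ∫ x, conv μ Q R x * f x ∂μ = ∫ x, conv μ Q Q x * e x ∂μ := by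
    have h5 : conv μ Q R = conv μ R (conv μ f e) := by rw [← hQ, conv_comm cQ.l cR.l]
    rw [h5, tri cR hf he hf, conv_comm cR.l hf.l, ← conv_assoc hf.c hf.c cR.c, ← hP, hPR]
  have t4 : ∫ x, conv μ R R x * f x ∂μ = ∫ x, conv μ Q R x * e x ∂μ := by
    have h5 : conv μ R R = conv μ R (conv μ e e) := by rw [← hR]
    rw [h5, tri cR he he hf, conv_comm cR.l hf.l, ← conv_assoc he.c hf.c cR.c,
      conv_comm he.l hf.l, ← hQ]
  -- the integral
  have int2 : ∀ {a b : G → ℝ}, CS a → CS b → Integrable (fun x => a x * b x) μ :=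
    fun ha hb => integrable_of_cont (ha.c.mul hb.c)
  have k1 := cP.conv (μ := μ) cP
  have k2 := cP.conv (μ := μ) cQ
  have k3 := cQ.conv (μ := μ) cQ
  have k4 := cQ.conv (μ := μ) cR
  have k5 := cR.conv (μ := μ) cR
  have expand : ∀ g : G → ℝ, CS g → ∫ x, (conv μ P P x + 4 * t * conv μ P Q x +
      6 * t ^ 2 * conv μ Q Q x + 4 * t ^ 3 * conv μ Q R x + t ^ 4 * conv μ R R x) * g x ∂μ =
      (∫ x, conv μ P P x * g x ∂μ) + 4 * t * (∫ x, conv μ P Q x * g x ∂μ) +
      6 * t ^ 2 * (∫ x, conv μ Q Q x * g x ∂μ) + 4 * t ^ 3 * (∫ x, conv μ Q R x * g x ∂μ) +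
      t ^ 4 * (∫ x, conv μ R R x * g x ∂μ) := by
    intro g hg
    have e : ∀ x, (conv μ P P x + 4 * t * conv μ P Q x + 6 * t ^ 2 * conv μ Q Q x +
        4 * t ^ 3 * conv μ Q R x + t ^ 4 * conv μ R R x) * g x =
        conv μ P P x * g x + 4 * t * (conv μ P Q x * g x) + 6 * t ^ 2 * (conv μ Q Q x * g x) +
        4 * t ^ 3 * (conv μ Q R x * g x) + t ^ 4 * (conv μ R R x * g x) := fun x => by ring
    simp only [e]
    have i1 := int2 k1 hg
    have i2 := (int2 k2 hg).const_mul (4 * t)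
    have i3 := (int2 k3 hg).const_mul (6 * t ^ 2)
    have i4 := (int2 k4 hg).const_mul (4 * t ^ 3)
    have i5 := (int2 k5 hg).const_mul (t ^ 4)
    have i12 : Integrable (fun x => conv μ P P x * g x + 4 * t * (conv μ P Q x * g x)) μ :=
      i1.add i2
    have i123 : Integrable (fun x => conv μ P P x * g x + 4 * t * (conv μ P Q x * g x) +
        6 * t ^ 2 * (conv μ Q Q x * g x)) μ := i12.add i3
    have i1234 : Integrable (fun x => conv μ P P x * g x + 4 * t * (conv μ P Q x * g x) +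
        6 * t ^ 2 * (conv μ Q Q x * g x) + 4 * t ^ 3 * (conv μ Q R x * g x)) μ := i123.add i4
    rw [integral_add i1234 i5, integral_add i123 i4, integral_add i12 i3, integral_add i1 i2,
      integral_const_mul, integral_const_mul, integral_const_mul, integral_const_mul]
  have hk : CS fun x => f x + t * e x :=
    ⟨hf.c.add (continuous_const.mul he.c), fun g x => by rw [hf.l, he.l],
      fun x => by rw [hf.s, he.s]⟩
  unfold Bf
  rw [h4]
  obtain ⟨S, hS⟩ : ∃ S : G → ℝ, S = fun x => conv μ P P x + 4 * t * conv μ P Q x +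
      6 * t ^ 2 * conv μ Q Q x + 4 * t ^ 3 * conv μ Q R x + t ^ 4 * conv μ R R x := ⟨_, rfl⟩
  have cS : Continuous S := by
    rw [hS]
    exact ((((k1.c.add (continuous_const.mul k2.c)).add (continuous_const.mul k3.c)).add
      (continuous_const.mul k4.c)).add (continuous_const.mul k5.c))
  have e1 : ∫ x, (conv μ P P x + 4 * t * conv μ P Q x + 6 * t ^ 2 * conv μ Q Q x +
      4 * t ^ 3 * conv μ Q R x + t ^ 4 * conv μ R R x) * (f x + t * e x) ∂μ =
      (∫ x, S x * f x ∂μ) + t * ∫ x, S x * e x ∂μ := by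
    have i1 : Integrable (fun x => S x * f x) μ := integrable_of_cont (cS.mul hf.c)
    have i2 : Integrable (fun x => t * (S x * e x)) μ :=
      (integrable_of_cont (cS.mul he.c)).const_mul t
    rw [← integral_const_mul, ← integral_add i1 i2]
    refine integral_congr_ae (Eventually.of_forall fun x => ?_)
    rw [hS]
    beta_reduce
    ring
  have e2 := expand f hf
  have e3 := expand e he
  have e4 : ∀ x, S x = conv μ P P x + 4 * t * conv μ P Q x +
      6 * t ^ 2 * conv μ Q Q x + 4 * t ^ 3 * conv μ Q R x + t ^ 4 * conv μ R R x := fun x => by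
    rw [hS]
  simp only [e4] at e1
  rw [e1, e2, e3, hH, t1, t2, t3, t4]
  simp only [← hP, ← hQ, ← hR]
  ring

end alg

section uv

open scoped Matrix.Norms.Frobenius
open Pool.Agent.H906R3.YM Pool.Agent.W793.YM Pool.Agent.TH618.YM Pool.Agent.N984.TW
open Pool.Agent.N109.T3 (nz gs cvR)
open Pool.Agent.N839.T3 (em SD gs_eq nz_pos)
open Pool.Agent.N453.T3 (ga Ig gs_ga Ig_half Ig_eq Ig_pos cvR_ga2 rp rp_mom rp_zero Ac Ac_pos H4_lim
  conv2 cvR_rp cvR_comm cvR_cmul ga_zero)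

variable {N n : ℕ} {G : Subgroup (UN N)} {B : Frame G n} {hG : IsClosed (G : Set (UN N))}
  {ι : Type*} {l : Filter ι} {h : ι → ℝ}

/-- the integral of a radial polynomial against the Gaussian -/
lemma int_rp (b0 b2 b4 : ℝ) : ∫ x : Fin n → ℝ, rp b0 b2 b4 x * ga (5 / 8) x =
    (b0 + n * (4 / 5) * b2 + n * (n + 2) * (16 / 25) * b4) * Ig n (5 / 8) := by
  have h1 := rp_mom (n := n) (s := 5 / 8) (by norm_num) b0 b2 b4 0
  simp only [add_zero] at h1
  rw [h1, rp_zero]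
  norm_num

variable [CompactSpace G] [MeasurableSpace G] [BorelSpace G] [SecondCountableTopology G]
  {μ : Measure G} [IsProbabilityMeasure μ] [μ.IsHaarMeasure] [μ.IsMulRightInvariant]
  [μ.IsInvInvariant]

lemma conv_n [l.IsCountablyGenerated] {u v : ι → G → ℝ} {U V : (Fin n → ℝ) → ℝ}
    (H : SD B hG l h (fun i x => u i x / nz μ (h i)) U)
    (K : SD B hG l h (fun i x => v i x / nz μ (h i)) V) :
    SD B hG l h (fun i x => conv μ (u i) (v i) x / nz μ (h i) ^ 3)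
      (fun x => cvR U V x / Ig n (1 / 2)) := by
  refine (Pool.Agent.N839.T3.SD.conv (μ := μ) H K).congr (fun i x => ?_) fun x => ?_
  · have e1 : (fun x => u i x / nz μ (h i)) = fun x => (nz μ (h i))⁻¹ * u i x := by
      funext x
      ring
    have e2 : (fun x => v i x / nz μ (h i)) = fun x => (nz μ (h i))⁻¹ * v i x := by
      funext x
      ring
    rw [e1, e2, Pool.Agent.N681.MK.conv_scale2]
    beta_reduce
    ring
  · rw [Ig_half]

lemma int_n [l.IsCountablyGenerated] {w e : ι → G → ℝ} {W E : (Fin n → ℝ) → ℝ}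
    (H : SD B hG l h (fun i x => w i x / nz μ (h i) ^ 3) W) (K : SD B hG l h e E) :
    Tendsto (fun i => (∫ x, w i x * e i x ∂μ) / nz μ (h i) ^ 4) l
      (𝓝 ((∫ x, W x * E x) / Ig n (1 / 2))) := by
  have h1 := Pool.Agent.N839.T3.SD.int_lim (μ := μ) (H.mul K)
  rw [Ig_half] at h1
  refine h1.congr fun i => ?_
  have e3 : ∀ x, w i x / nz μ (h i) ^ 3 * e i x = (nz μ (h i) ^ 3)⁻¹ * (w i x * e i x) :=
    fun x => by ring
  simp only [e3]
  rw [integral_const_mul]
  have hn := (nz_pos (μ := μ) (h i)).ne'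
  field_simp

lemma q_lim [l.IsCountablyGenerated] {f e : ι → G → ℝ} {a : ℝ} (H : SD B hG l h f gs)
    (K : SD B hG l h e (fun x => a / 2 * nE x ^ 2 * gs x)) :
    SD B hG l h (fun i x => conv μ (f i) (e i) x / nz μ (h i))
      (fun x => Ig n 1 / Ig n (1 / 2) * (rp (n * a / 4) (a / 8) 0 x * ga (1 / 4) x)) := by
  refine (Pool.Agent.N839.T3.SD.conv (μ := μ) H K).congr (fun _ _ => rfl) fun x => ?_
  have e1 : (gs (n := n)) = ga (1 / 2) := funext gs_ga
  have e2 : (fun x : Fin n → ℝ => a / 2 * nE x ^ 2 * gs x) =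
      fun x => rp 0 (a / 2) 0 x * ga (1 / 2) x := by
    funext x
    rw [gs_ga]
    unfold rp
    ring
  rw [cvR_comm, e2, Ig_half, e1, cvR_rp (by norm_num)]
  have c0 : (0 : ℝ) + n * (1 / (4 * (1 / 2))) * (a / 2) +
      n * (n + 2) * (1 / (4 * (1 / 2))) ^ 2 * 0 = n * a / 4 := by ring
  have c2 : (a / 2 + (2 * n + 4) * (1 / (4 * (1 / 2))) * 0) / 4 = a / 8 := by ring
  have c3 : (1 : ℝ) / 2 / 2 = 1 / 4 := by norm_num
  have c4 : (2 : ℝ) * (1 / 2) = 1 := by norm_num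
  rw [c0, c2, c3, c4, zero_div]
  ring

lemma pq_lim [l.IsCountablyGenerated] {f e : ι → G → ℝ} {a : ℝ} (H : SD B hG l h f gs)
    (K : SD B hG l h e (fun x => a / 2 * nE x ^ 2 * gs x)) :
    SD B hG l h (fun i x => conv μ (conv μ (f i) (f i)) (conv μ (f i) (e i)) x / nz μ (h i) ^ 3)
      (fun x => Ac n * (rp (3 * n * a / 8) (a / 32) 0 x * ga (1 / 8) x)) := by
  refine (conv_n (conv2 (μ := μ) H) (q_lim (μ := μ) H K)).congr (fun _ _ => rfl) fun x => ?_
  rw [cvR_cmul, cvR_comm, cvR_rp (by norm_num : (0 : ℝ) < 1 / 4)]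
  have c0 : (n : ℝ) * a / 4 + n * (1 / (4 * (1 / 4))) * (a / 8) +
      n * (n + 2) * (1 / (4 * (1 / 4))) ^ 2 * 0 = 3 * n * a / 8 := by ring
  have c2 : (a / 8 + (2 * n + 4) * (1 / (4 * (1 / 4))) * 0) / 4 = a / 32 := by ring
  have c3 : (1 : ℝ) / 4 / 2 = 1 / 8 := by norm_num
  have c4 : (2 : ℝ) * (1 / 4) = 1 / 2 := by norm_num
  rw [c0, c2, c3, c4, zero_div]
  have h2 := (Ig_pos (n := n) (s := 1 / 2) (by norm_num)).ne'
  unfold Ac
  field_simp

/-- **the second bracket in the scaling limit** -/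
theorem br2 [l.IsCountablyGenerated] {f e : ι → G → ℝ} {a : ℝ} (hf : ∀ i, Adm (f i))
    (hk : ∀ i, Adm (fun x => f i x + e i x / h i)) (H : SD B hG l h f gs)
    (K : SD B hG l h e (fun x => a / 2 * nE x ^ 2 * gs x)) :
    Tendsto (fun i => h i ^ 2 * (4 * Real.log (Bf μ (f i)) +
      Real.log (Bf μ (fun x => f i x + e i x / h i)) -
      5 * Real.log (∫ x, H4 μ (f i) x * (f i x + e i x / h i) ∂μ))) l (𝓝 (n / 5 * a ^ 2)) := by
  have hh := H.top
  have h0 := Ig_pos (n := n) (s := 1 / 2) (by norm_num)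
  have h5 := Ig_pos (n := n) (s := 5 / 8) (by norm_num)
  have hAc := Ac_pos (n := n)
  have hi0 : Tendsto (fun i => (h i)⁻¹) l (𝓝 0) := hh.inv_tendsto_atTop
  -- the moments
  obtain ⟨m0, hm0⟩ : ∃ m : ι → ℝ, m = fun i => ∫ x, H4 μ (f i) x * f i x ∂μ := ⟨_, rfl⟩
  obtain ⟨m1, hm1⟩ : ∃ m : ι → ℝ, m = fun i => ∫ x, H4 μ (f i) x * e i x ∂μ := ⟨_, rfl⟩
  obtain ⟨m2, hm2⟩ : ∃ m : ι → ℝ, m = fun i =>
    ∫ x, conv μ (conv μ (f i) (f i)) (conv μ (f i) (e i)) x * e i x ∂μ := ⟨_, rfl⟩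
  obtain ⟨m3, hm3⟩ : ∃ m : ι → ℝ, m = fun i =>
    ∫ x, conv μ (conv μ (f i) (e i)) (conv μ (f i) (e i)) x * e i x ∂μ := ⟨_, rfl⟩
  obtain ⟨m4, hm4⟩ : ∃ m : ι → ℝ, m = fun i =>
    ∫ x, conv μ (conv μ (f i) (e i)) (conv μ (e i) (e i)) x * e i x ∂μ := ⟨_, rfl⟩
  obtain ⟨m5, hm5⟩ : ∃ m : ι → ℝ, m = fun i =>
    ∫ x, conv μ (conv μ (e i) (e i)) (conv μ (e i) (e i)) x * e i x ∂μ := ⟨_, rfl⟩
  have hQ := q_lim (μ := μ) H K
  have hR := Pool.Agent.N839.T3.SD.conv (μ := μ) K K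
  have M0 : Tendsto (fun i => m0 i / nz μ (h i) ^ 4) l
      (𝓝 (Ac n * Ig n (5 / 8) / Ig n (1 / 2))) := by
    have h1 := int_n (μ := μ) (H4_lim (μ := μ) H) H
    have e : ∫ x : Fin n → ℝ, Ac n * ga (1 / 8) x * gs x = Ac n * Ig n (5 / 8) := by
      have e2 : ∀ x : Fin n → ℝ, Ac n * ga (1 / 8) x * gs x = Ac n * ga (5 / 8) x := fun x => by
        rw [gs_ga, mul_assoc, ga_mul]
        norm_num
      simp only [e2]
      rw [integral_const_mul]
      rfl
    rw [e] at h1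
    rw [hm0]
    exact h1
  have M1 : Tendsto (fun i => m1 i / nz μ (h i) ^ 4) l
      (𝓝 (2 * n * a / 5 * (Ac n * Ig n (5 / 8) / Ig n (1 / 2)))) := by
    have h1 := int_n (μ := μ) (H4_lim (μ := μ) H) K
    have e : ∫ x : Fin n → ℝ, Ac n * ga (1 / 8) x * (a / 2 * nE x ^ 2 * gs x) =
        2 * n * a / 5 * (Ac n * Ig n (5 / 8)) := by
      have e2 : ∀ x : Fin n → ℝ, Ac n * ga (1 / 8) x * (a / 2 * nE x ^ 2 * gs x) =
          Ac n * (rp 0 (a / 2) 0 x * ga (5 / 8) x) := fun x => by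
        have e3 : ga (5 / 8) x = ga (1 / 8) x * ga (1 / 2) x := by
          rw [ga_mul]
          norm_num
        rw [gs_ga, e3]
        unfold rp
        ring
      simp only [e2]
      rw [integral_const_mul, int_rp]
      ring
    rw [e, mul_div_assoc] at h1
    rw [hm1]
    exact h1
  have M2 : Tendsto (fun i => m2 i / nz μ (h i) ^ 4) l
      (𝓝 (a ^ 2 * (4 / 25 * n ^ 2 + n / 50) * (Ac n * Ig n (5 / 8) / Ig n (1 / 2)))) := by
    have h1 := int_n (μ := μ) (pq_lim (μ := μ) H K) K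
    have e : ∫ x : Fin n → ℝ, Ac n * (rp (3 * n * a / 8) (a / 32) 0 x * ga (1 / 8) x) *
        (a / 2 * nE x ^ 2 * gs x) =
        a ^ 2 * (4 / 25 * n ^ 2 + n / 50) * (Ac n * Ig n (5 / 8)) := by
      have e2 : ∀ x : Fin n → ℝ, Ac n * (rp (3 * n * a / 8) (a / 32) 0 x * ga (1 / 8) x) *
          (a / 2 * nE x ^ 2 * gs x) =
          Ac n * (rp 0 (3 * n * a ^ 2 / 16) (a ^ 2 / 64) x * ga (5 / 8) x) := fun x => by
        have e3 : ga (5 / 8) x = ga (1 / 8) x * ga (1 / 2) x := by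
          rw [ga_mul]
          norm_num
        rw [gs_ga, e3]
        unfold rp
        ring
      simp only [e2]
      rw [integral_const_mul, int_rp]
      ring
    rw [e, mul_div_assoc] at h1
    rw [hm2]
    exact h1
  obtain ⟨c3, M3⟩ : ∃ c, Tendsto (fun i => m3 i / nz μ (h i) ^ 4) l (𝓝 c) := by
    rw [hm3]
    exact ⟨_, int_n (μ := μ) (conv_n (μ := μ) hQ hQ) K⟩
  obtain ⟨c4, M4⟩ : ∃ c, Tendsto (fun i => m4 i / nz μ (h i) ^ 4) l (𝓝 c) := by
    rw [hm4]
    exact ⟨_, int_n (μ := μ) (conv_n (μ := μ) hQ hR) K⟩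
  obtain ⟨c5, M5⟩ : ∃ c, Tendsto (fun i => m5 i / nz μ (h i) ^ 4) l (𝓝 c) := by
    rw [hm5]
    exact ⟨_, int_n (μ := μ) (conv_n (μ := μ) hR hR) K⟩
  obtain ⟨c0, hc0⟩ : ∃ c, c = Ac n * Ig n (5 / 8) / Ig n (1 / 2) := ⟨_, rfl⟩
  have c0p : 0 < c0 := by
    rw [hc0]
    positivity
  rw [← hc0] at M0 M1 M2
  have nzp : ∀ i, nz μ (h i) ^ 4 ≠ 0 := fun i => (pow_pos (nz_pos (μ := μ) (h i)) 4).ne'
  have quo : ∀ {m : ι → ℝ} {c : ℝ}, Tendsto (fun i => m i / nz μ (h i) ^ 4) l (𝓝 c) →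
      Tendsto (fun i => m i / m0 i) l (𝓝 (c / c0)) := by
    intro m c hm
    refine (hm.div M0 c0p.ne').congr fun i => ?_
    exact div_div_div_cancel_right₀ (nzp i) _ _
  have X := quo M1
  have Y := quo M2
  rw [mul_div_assoc, div_self c0p.ne', mul_one] at X Y
  have R : Tendsto (fun i => 10 * (m3 i / m0 i) + 5 * (m4 i / m0 i) * (h i)⁻¹ +
      m5 i / m0 i * ((h i)⁻¹ * (h i)⁻¹)) l (𝓝 (10 * (c3 / c0) + 5 * (c4 / c0) * 0 +
        c5 / c0 * (0 * 0))) :=
    (((quo M3).const_mul 10).add (((quo M4).const_mul 5).mul hi0)).add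
      ((quo M5).mul (hi0.mul hi0))
  have key := log_bracket hh X Y R
  have e0 : 10 * (a ^ 2 * (4 / 25 * (n : ℝ) ^ 2 + n / 50) - (2 * n * a / 5) ^ 2) =
      n / 5 * a ^ 2 := by ring
  rw [e0] at key
  refine key.congr' ?_
  have h6 : Tendsto (fun i => 1 + m1 i / m0 i * (h i)⁻¹) l (𝓝 (1 + 2 * n * a / 5 * 0)) :=
    tendsto_const_nhds.add (X.mul hi0)
  rw [mul_zero, add_zero] at h6
  filter_upwards [hh.eventually_gt_atTop 0, h6.eventually (lt_mem_nhds zero_lt_one)] with i hi h7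
  have m0p : 0 < m0 i := by
    rw [hm0]
    exact Bf_pos (hf i)
  have cf : CS (f i) := ⟨H.cont i, (hf i).cls, (hf i).sy⟩
  have ek : ∀ x, e i x = h i * ((f i x + e i x / h i) - f i x) := fun x => by
    field_simp
    ring
  have ce : CS (e i) := by
    refine ⟨K.cont i, fun g x => ?_, fun x => ?_⟩
    · rw [ek, ek x]
      have h8 := (hk i).cls g x
      beta_reduce at h8
      rw [h8, (hf i).cls g x]
    · rw [ek, ek x]
      have h8 := (hk i).sy x
      beta_reduce at h8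
      rw [h8, (hf i).sy x]
  have ef : (fun x => f i x + e i x / h i) = fun x => f i x + (h i)⁻¹ * e i x := by
    funext x
    ring
  have B1 : Bf μ (fun x => f i x + e i x / h i) = m0 i * (1 + 5 * (m1 i / m0 i) / h i +
      10 * (m2 i / m0 i) / h i ^ 2 + (10 * (m3 i / m0 i) + 5 * (m4 i / m0 i) * (h i)⁻¹ +
      m5 i / m0 i * ((h i)⁻¹ * (h i)⁻¹)) / h i ^ 3) := by
    rw [ef, Bf_expand cf ce]
    simp only [hm0, hm1, hm2, hm3, hm4, hm5] at m0p ⊢
    field_simp
    ring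
  have B2 : ∫ x, H4 μ (f i) x * (f i x + e i x / h i) ∂μ = m0 i * (1 + m1 i / m0 i / h i) := by
    have h8 : ∀ x, H4 μ (f i) x * (f i x + e i x / h i) = H4 μ (f i) x * f i x +
        (h i)⁻¹ * (H4 μ (f i) x * e i x) := fun x => by ring
    have cH : Continuous (H4 μ (f i)) := ((cf.conv (μ := μ) cf).conv (μ := μ)
      (cf.conv (μ := μ) cf)).c
    have i1 : Integrable (fun x => H4 μ (f i) x * f i x) μ := integrable_of_cont (cH.mul cf.c)
    have i2 : Integrable (fun x => (h i)⁻¹ * (H4 μ (f i) x * e i x)) μ :=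
      (integrable_of_cont (cH.mul ce.c)).const_mul _
    simp only [h8]
    rw [integral_add i1 i2, integral_const_mul]
    simp only [hm0, hm1] at m0p ⊢
    field_simp
  have Bp := Bf_pos (μ := μ) (hk i)
  rw [B1] at Bp
  have A1 := (pos_iff_pos_of_mul_pos Bp).1 m0p
  have A2 : 0 < 1 + m1 i / m0 i / h i := by
    rw [div_eq_mul_inv]
    exact h7
  have B0 : Bf μ (f i) = m0 i := by
    rw [hm0]
    rfl
  rw [B1, B2, B0, Real.log_mul m0p.ne' A1.ne', Real.log_mul m0p.ne' A2.ne']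
  have e9 : 5 * (m1 i / m0 i) / h i = 5 * (m1 i / m0 i) / h i := rfl
  ring

end uv

end

end Pool.Agent.N839.AT
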